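import Mathlib

/-!
# MP_f4ab27_co: covering families of integer vectors have at most `(1/4 + o(1)) 2 ^ q` members

A family `F` of vectors of `ℤ ^ q` is `A`-covering if for all distinct `u, v ∈ F` every `a ∈ A` is a coordinate of
`u - v`. If `1 ∈ A` then `F` has at most `bound q` members, the number of the subsets of a set with `q` elements
whose size is congruent to `⌊q / 2⌋` modulo `4`; for `q ≥ 1` this is `(2 ^ q + 2 ^ (⌊q / 2⌋ + 1)) / 4`.

Proof (inertia bound with complex weights). The function `φ(d) = (1 + i) / 2 * (1 + (-i) ^ (d + 1))` has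
`φ(0) = 1`, `φ(1) = 0`. So the matrix of the `Φ(u - v) = ∏ φ(u_j - v_j)`, `u, v ∈ F`, is the identity. On the other
hand `Φ(u - v) = ((1 + i) / 2) ^ q ∑_A (-i) ^ |A| χ_A(u) conj (χ_A(v))` with `χ_A(u) = (-i) ^ (∑_{j ∈ A} u_j)`. For a
vector `b` on `F` with `y_A = ∑_u b_u χ_A(u)` this gives `(1 - i) ^ q ‖b‖² = ∑_A (-i) ^ |A| |y_A|²`; multiplied by
`i ^ ⌊q/2⌋` the real part of the left side is `2 ^ ⌊q/2⌋ ‖b‖²`, and the real part of `i ^ ⌊q/2⌋ (-i) ^ |A|` is positive only
if `|A|` is congruent to `⌊q/2⌋` modulo `4`. If `F` had more members than there are such sets `A`, some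
`b ≠ 0` would have `y_A = 0` for all of them, a contradiction.
-/

set_option autoImplicit false

namespace Pool.Agent.Results.MP_f4ab27_co.QuarterBound

open Finset Complex Filter

/-- For all distinct `u, v ∈ F` every element of `A` is a coordinate of `u - v`. -/
def Covering {q : ℕ} (A : Set ℤ) (F : Set (Fin q → ℤ)) : Prop :=
  ∀ u ∈ F, ∀ v ∈ F, u ≠ v → ∀ a ∈ A, ∃ i, u i - v i = a

/-- The sum of the binomial coefficients `q` over `k`, `k ≤ q`, `k` congruent to `⌊q / 2⌋` modulo `4`. -/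
def bound (q : ℕ) : ℕ := ∑ k ∈ (range (q + 1)).filter (fun k => k % 4 = q / 2 % 4), q.choose k

/-- The supremum of the sizes of the finite `A`-covering families in `ℤ ^ q`. -/
noncomputable def maxSize (A : Set ℤ) (q : ℕ) : ℕ :=
  sSup {n : ℕ | ∃ F : Finset (Fin q → ℤ), Covering A (F : Set (Fin q → ℤ)) ∧ F.card = n}

/-! ## The inertia bound -/

noncomputable def e (n : ℤ) : ℂ := (-I) ^ n

lemma negI_ne : (-I : ℂ) ≠ 0 := neg_ne_zero.2 I_ne_zero

lemma e_add (a b : ℤ) : e (a + b) = e a * e b := zpow_add₀ negI_ne a b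

lemma e_neg (a : ℤ) : e (-a) = (starRingEnd ℂ) (e a) := by
  unfold e
  rw [map_zpow₀, map_neg, conj_I, neg_neg, zpow_neg, ← inv_zpow, inv_neg, inv_I, neg_neg]

lemma e_sum {ι : Type} (s : Finset ι) (f : ι → ℤ) : ∏ j ∈ s, e (f j) = e (∑ j ∈ s, f j) := by
  classical
  induction s using Finset.induction_on with
  | empty => simp [e]
  | insert i s hi ih => rw [prod_insert hi, sum_insert hi, e_add, ih]

noncomputable def Phi {q : ℕ} (d : Fin q → ℤ) : ℂ := ∏ j, ((1 + I) / 2 * (1 + e (d j + 1)))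

lemma fac_zero : (1 + I) / 2 * (1 + e (0 + 1)) = 1 := by
  have h : e (0 + 1) = -I := by unfold e; norm_num
  rw [h]
  have h2 : (1 + I) / 2 * (1 + -I) = (1 - I * I) / 2 := by ring
  rw [h2, I_mul_I]
  norm_num

lemma fac_one : (1 + I) / 2 * (1 + e (1 + 1)) = 0 := by
  have h : e (1 + 1) = -1 := by
    unfold e
    have : ((1 : ℤ) + 1) = ((2 : ℕ) : ℤ) := by norm_num
    rw [this, zpow_natCast]
    rw [neg_sq, I_sq]
  rw [h]
  ring

lemma Phi_zero {q : ℕ} (d : Fin q → ℤ) (h : ∀ j, d j = 0) : Phi d = 1 := by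
  unfold Phi
  refine prod_eq_one fun j _ => ?_
  rw [h j]
  exact fac_zero

lemma Phi_one {q : ℕ} (d : Fin q → ℤ) (i : Fin q) (h : d i = 1) : Phi d = 0 := by
  unfold Phi
  refine prod_eq_zero (mem_univ i) ?_
  rw [h]
  exact fac_one

lemma Phi_expand {q : ℕ} (d : Fin q → ℤ) :
    Phi d = ((1 + I) / 2) ^ q * ∑ A : Finset (Fin q), e (A.card + ∑ j ∈ A, d j) := by
  classical
  unfold Phi
  rw [prod_mul_distrib, prod_const, card_univ, Fintype.card_fin, prod_one_add, powerset_univ]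
  congr 1
  refine sum_congr rfl fun A _ => ?_
  rw [e_sum, sum_add_distrib, sum_const, nsmul_eq_mul, mul_one, add_comm]

lemma re_le {m k : ℕ} (h : k % 4 ≠ m % 4) : (I ^ m * (-I) ^ k).re ≤ 0 := by
  have h1 : I ^ m = I ^ (m % 4) := I_pow_eq_pow_mod m
  have h2 : (-I) ^ k = (-I) ^ (k % 4) := by
    conv_lhs => rw [← Nat.div_add_mod k 4, pow_add, pow_mul]
    have : (-I) ^ 4 = 1 := by
      rw [neg_pow, I_pow_four]
      norm_num
    rw [this, one_pow, one_mul]
  rw [h1, h2]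
  have hm : m % 4 < 4 := Nat.mod_lt _ (by norm_num)
  have hk : k % 4 < 4 := Nat.mod_lt _ (by norm_num)
  have e3 : I ^ 3 = -I := I_pow_three
  have e3' : (-I) ^ 3 = I := by rw [neg_pow, I_pow_three]; ring
  interval_cases (m % 4) <;> interval_cases (k % 4) <;> simp_all [pow_succ]

lemma left_eq (q : ℕ) : I ^ (q / 2) * (1 - I) ^ q = 2 ^ (q / 2) * (1 - I) ^ (q % 2) := by
  conv_lhs => rw [← Nat.div_add_mod q 2, pow_add, pow_mul]
  have h1 : (2 * (q / 2) + q % 2) / 2 = q / 2 := by omega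
  have h2 : (1 - I) ^ 2 = -2 * I := by
    have : (1 - I) ^ 2 = 1 - 2 * I + I * I := by ring
    rw [this, I_mul_I]
    ring
  rw [h1, h2, ← mul_assoc, ← mul_pow]
  congr 2
  have : I * (-2 * I) = -2 * (I * I) := by ring
  rw [this, I_mul_I]
  norm_num

/-- the inertia bound -/
theorem card_le {q : ℕ} (F : Finset (Fin q → ℤ))
    (hF : ∀ u ∈ F, ∀ v ∈ F, u ≠ v → ∃ i, u i - v i = 1) :
    F.card ≤ ((univ : Finset (Finset (Fin q))).filter (fun A => A.card % 4 = q / 2 % 4)).card := by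
  classical
  by_contra hcon
  push Not at hcon
  set P := (univ : Finset (Finset (Fin q))).filter (fun A => A.card % 4 = q / 2 % 4) with hP
  let L : (F → ℂ) →ₗ[ℂ] (P → ℂ) :=
    { toFun := fun b A => ∑ u : F, b u * e (∑ j ∈ A.1, u.1 j)
      map_add' := by
        intro b b'
        funext A
        simp only [Pi.add_apply, add_mul, sum_add_distrib]
      map_smul' := by
        intro c b
        funext A
        simp only [Pi.smul_apply, smul_eq_mul, RingHom.id_apply, mul_sum, mul_assoc] }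
  have hker : LinearMap.ker L ≠ ⊥ := by
    apply LinearMap.ker_ne_bot_of_finrank_lt
    rw [Module.finrank_fintype_fun_eq_card, Module.finrank_fintype_fun_eq_card, Fintype.card_coe,
      Fintype.card_coe]
    exact hcon
  obtain ⟨b, hb, hb0⟩ := Submodule.exists_mem_ne_zero_of_ne_bot hker
  set y : Finset (Fin q) → ℂ := fun A => ∑ u : F, b u * e (∑ j ∈ A, u.1 j) with hydef
  have hy : ∀ A : Finset (Fin q), A.card % 4 = q / 2 % 4 → y A = 0 := by
    intro A hA
    have h1 : A ∈ P := mem_filter.2 ⟨mem_univ _, hA⟩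
    have h2 : L b = 0 := hb
    exact congrFun h2 ⟨A, h1⟩
  set S : ℝ := ∑ u : F, normSq (b u) with hS
  have hSpos : 0 < S := by
    obtain ⟨u, hu⟩ := Function.ne_iff.1 hb0
    exact sum_pos' (fun _ _ => normSq_nonneg _) ⟨u, mem_univ _, normSq_pos.2 hu⟩
  have hident : ∀ u : F, ∑ v : F, b u * (starRingEnd ℂ) (b v) * Phi (fun j => u.1 j - v.1 j) =
      (normSq (b u) : ℂ) := by
    intro u
    rw [sum_eq_single u]
    · rw [Phi_zero _ (fun j => sub_self _), mul_one, mul_conj]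
    · intro v _ hv
      have hne : u.1 ≠ v.1 := fun h => hv (Subtype.ext h.symm)
      obtain ⟨i, hi⟩ := hF u.1 u.2 v.1 v.2 hne
      rw [Phi_one _ i hi, mul_zero]
    · intro h
      exact absurd (mem_univ u) h
  have key : (S : ℂ) = ((1 + I) / 2) ^ q *
      ∑ A : Finset (Fin q), e (A.card : ℤ) * (normSq (y A) : ℂ) := by
    have h1 : (S : ℂ) = ∑ u : F, ∑ v : F,
        b u * (starRingEnd ℂ) (b v) * Phi (fun j => u.1 j - v.1 j) := by
      rw [hS]
      push_cast
      exact (sum_congr rfl fun u _ => hident u).symm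
    rw [h1]
    have h2 : ∀ A : Finset (Fin q), e (A.card : ℤ) * (normSq (y A) : ℂ) =
        ∑ u : F, ∑ v : F, b u * (starRingEnd ℂ) (b v) *
          e (A.card + ∑ j ∈ A, (u.1 j - v.1 j)) := by
      intro A
      rw [← mul_conj, hydef, map_sum, sum_mul_sum, mul_sum]
      refine sum_congr rfl fun u _ => ?_
      rw [mul_sum]
      refine sum_congr rfl fun v _ => ?_
      rw [map_mul, ← e_neg, sum_sub_distrib, e_add, sub_eq_add_neg, e_add]
      ring
    simp_rw [h2, Phi_expand]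
    calc ∑ u : F, ∑ v : F, b u * (starRingEnd ℂ) (b v) * (((1 + I) / 2) ^ q *
          ∑ A : Finset (Fin q), e (A.card + ∑ j ∈ A, (u.1 j - v.1 j)))
        = ∑ u : F, ∑ v : F, ∑ A : Finset (Fin q), ((1 + I) / 2) ^ q *
          (b u * (starRingEnd ℂ) (b v) * e (A.card + ∑ j ∈ A, (u.1 j - v.1 j))) := by
          refine sum_congr rfl fun u _ => sum_congr rfl fun v _ => ?_
          rw [mul_sum, mul_sum]
          refine sum_congr rfl fun A _ => ?_
          ring
      _ = ∑ u : F, ∑ A : Finset (Fin q), ∑ v : F, ((1 + I) / 2) ^ q *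
          (b u * (starRingEnd ℂ) (b v) * e (A.card + ∑ j ∈ A, (u.1 j - v.1 j))) :=
          sum_congr rfl fun u _ => sum_comm
      _ = ∑ A : Finset (Fin q), ∑ u : F, ∑ v : F, ((1 + I) / 2) ^ q *
          (b u * (starRingEnd ℂ) (b v) * e (A.card + ∑ j ∈ A, (u.1 j - v.1 j))) := sum_comm
      _ = _ := by
          rw [mul_sum]
          refine sum_congr rfl fun A _ => ?_
          rw [mul_sum]
          refine sum_congr rfl fun u _ => ?_
          rw [mul_sum]
  have hcancel : (1 - I) ^ q * ((1 + I) / 2) ^ q = 1 := by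
    rw [← mul_pow]
    have : (1 - I) * ((1 + I) / 2) = (1 - I * I) / 2 := by ring
    rw [this, I_mul_I]
    norm_num
  have key2 : (2 : ℂ) ^ (q / 2) * (1 - I) ^ (q % 2) * (S : ℂ) =
      ∑ A : Finset (Fin q), (I ^ (q / 2) * (-I) ^ A.card) * (normSq (y A) : ℂ) := by
    rw [← left_eq, key]
    have h3 : I ^ (q / 2) * (1 - I) ^ q * (((1 + I) / 2) ^ q *
        ∑ A : Finset (Fin q), e (A.card : ℤ) * (normSq (y A) : ℂ)) =
        I ^ (q / 2) * ((1 - I) ^ q * ((1 + I) / 2) ^ q) *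
        ∑ A : Finset (Fin q), e (A.card : ℤ) * (normSq (y A) : ℂ) := by ring
    rw [h3, hcancel, mul_one, mul_sum]
    refine sum_congr rfl fun A _ => ?_
    unfold e
    rw [zpow_natCast]
    ring
  have hre := congrArg Complex.re key2
  rw [re_sum, re_mul_ofReal] at hre
  have hone : ((2 : ℂ) ^ (q / 2) * (1 - I) ^ (q % 2)).re = 2 ^ (q / 2) := by
    have h4 : (2 : ℂ) ^ (q / 2) = (((2 : ℝ) ^ (q / 2) : ℝ) : ℂ) := by push_cast; rfl
    rw [h4, re_ofReal_mul]
    rcases Nat.mod_two_eq_zero_or_one q with h | h <;> rw [h] <;> simp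
  rw [hone] at hre
  have hneg : ∑ A : Finset (Fin q), ((I ^ (q / 2) * (-I) ^ A.card) * (normSq (y A) : ℂ)).re ≤ 0 := by
    refine sum_nonpos fun A _ => ?_
    rw [re_mul_ofReal]
    by_cases hA : A.card % 4 = q / 2 % 4
    · rw [hy A hA, map_zero, mul_zero]
    · exact mul_nonpos_of_nonpos_of_nonneg (re_le hA) (normSq_nonneg _)
  have hpos : 0 < (2 : ℝ) ^ (q / 2) * S := by positivity
  linarith

/-! ## The number of the good sets -/

lemma card_filter_eq (q r : ℕ) :
    ((univ : Finset (Finset (Fin q))).filter (fun A => A.card % 4 = r)).card =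
      ∑ k ∈ (range (q + 1)).filter (fun k => k % 4 = r), q.choose k := by
  classical
  rw [card_eq_sum_card_fiberwise (f := fun A : Finset (Fin q) => A.card)
    (t := (range (q + 1)).filter (fun k => k % 4 = r))]
  · refine sum_congr rfl fun k hk => ?_
    rw [mem_filter] at hk
    have h1 : (((univ : Finset (Finset (Fin q))).filter (fun A => A.card % 4 = r)).filter
        (fun A => A.card = k)) = powersetCard k univ := by
      ext A
      simp only [mem_filter, mem_univ, true_and, mem_powersetCard, subset_univ]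
      constructor
      · rintro ⟨_, h⟩
        exact h
      · intro h
        exact ⟨by rw [h]; exact hk.2, h⟩
    rw [h1, card_powersetCard, card_univ, Fintype.card_fin]
  · intro A hA
    have hA' := (mem_filter.1 (mem_coe.1 hA)).2
    rw [mem_coe, mem_filter]
    refine ⟨mem_range.2 (Nat.lt_succ_of_le ?_), hA'⟩
    have := Finset.card_le_univ A
    rwa [Fintype.card_fin] at this

def T (q : ℕ) (r : ZMod 4) : ℕ := ∑ k ∈ range (q + 1), if (k : ZMod 4) = r then q.choose k else 0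

lemma bound_eq (q : ℕ) : bound q = T q ((q / 2 : ℕ) : ZMod 4) := by
  unfold bound T
  rw [sum_filter]
  refine sum_congr rfl fun k _ => ?_
  have : k % 4 = q / 2 % 4 ↔ (k : ZMod 4) = ((q / 2 : ℕ) : ZMod 4) :=
    (ZMod.natCast_eq_natCast_iff' k (q / 2) 4).symm
  simp only [this]

lemma T_succ (q : ℕ) (r : ZMod 4) : T (q + 1) (r + 1) = T q (r + 1) + T q r := by
  unfold T
  rw [sum_range_succ']
  have h1 : ∀ k ∈ range (q + 1),
      (if ((k + 1 : ℕ) : ZMod 4) = r + 1 then (q + 1).choose (k + 1) else 0) =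
      (if (k : ZMod 4) = r then q.choose k else 0) +
      (if ((k + 1 : ℕ) : ZMod 4) = r + 1 then q.choose (k + 1) else 0) := by
    intro k _
    have h2 : ((k + 1 : ℕ) : ZMod 4) = r + 1 ↔ (k : ZMod 4) = r := by
      push_cast
      exact add_left_inj 1
    by_cases h : (k : ZMod 4) = r
    · rw [if_pos (h2.2 h), if_pos h, if_pos (h2.2 h), Nat.choose_succ_succ]
    · rw [if_neg (fun hh => h (h2.1 hh)), if_neg h, if_neg (fun hh => h (h2.1 hh))]
  rw [sum_congr rfl h1, sum_add_distrib]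
  have h3 : ∑ k ∈ range (q + 1), (if (k : ZMod 4) = r + 1 then q.choose k else 0) =
      ∑ k ∈ range (q + 1), (if ((k + 1 : ℕ) : ZMod 4) = r + 1 then q.choose (k + 1) else 0) +
      (if ((0 : ℕ) : ZMod 4) = r + 1 then q.choose 0 else 0) := by
    rw [← sum_range_succ' (fun k : ℕ => if (k : ZMod 4) = r + 1 then q.choose k else 0) (q + 1),
      sum_range_succ _ (q + 1), Nat.choose_succ_self]
    simp
  rw [h3]
  simp only [Nat.choose_zero_right]
  ring

lemma T_two (q : ℕ) (r : ZMod 4) : T (q + 2) (r + 2) = T q (r + 2) + 2 * T q (r + 1) + T q r := by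
  have e : r + 2 = r + 1 + 1 := by ring
  rw [e, T_succ (q + 1) (r + 1), T_succ q (r + 1), T_succ q r]
  ring

lemma four_zero : (4 : ZMod 4) = 0 := by decide

lemma closed (m : ℕ) (hm : 1 ≤ m) :
    4 * T (2 * m) (m : ZMod 4) = 4 ^ m + 2 * 2 ^ m ∧ 4 * T (2 * m) ((m : ZMod 4) + 1) = 4 ^ m ∧
      4 * T (2 * m) ((m : ZMod 4) + 2) + 2 * 2 ^ m = 4 ^ m ∧
      4 * T (2 * m) ((m : ZMod 4) + 3) = 4 ^ m := by
  induction m, hm using Nat.le_induction with
  | base => decide
  | succ m hm ih =>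
    obtain ⟨h1, h2, h3, h4⟩ := ih
    have a1 := T_two (2 * m) ((m : ZMod 4) + 3)
    have a2 := T_two (2 * m) (m : ZMod 4)
    have a3 := T_two (2 * m) ((m : ZMod 4) + 1)
    have a4 := T_two (2 * m) ((m : ZMod 4) + 2)
    have r5 : (m : ZMod 4) + 3 + 2 = (m : ZMod 4) + 1 := by
      have : (m : ZMod 4) + 3 + 2 = (m : ZMod 4) + 1 + 4 := by ring
      rw [this, four_zero, add_zero]
    have r4 : (m : ZMod 4) + 3 + 1 = (m : ZMod 4) := by
      have : (m : ZMod 4) + 3 + 1 = (m : ZMod 4) + 4 := by ring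
      rw [this, four_zero, add_zero]
    have r4' : (m : ZMod 4) + 2 + 2 = (m : ZMod 4) := by
      have : (m : ZMod 4) + 2 + 2 = (m : ZMod 4) + 4 := by ring
      rw [this, four_zero, add_zero]
    have r3 : (m : ZMod 4) + 1 + 2 = (m : ZMod 4) + 3 := by ring
    have r2 : (m : ZMod 4) + 1 + 1 = (m : ZMod 4) + 2 := by ring
    have r3' : (m : ZMod 4) + 2 + 1 = (m : ZMod 4) + 3 := by ring
    rw [r5, r4] at a1
    rw [r3, r2] at a3
    rw [r4', r3'] at a4
    have hq : 2 * (m + 1) = 2 * m + 2 := by ring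
    have c1 : ((m + 1 : ℕ) : ZMod 4) = (m : ZMod 4) + 1 := by push_cast; rfl
    have r4'' : (m : ZMod 4) + 1 + 3 = (m : ZMod 4) := by
      have : (m : ZMod 4) + 1 + 3 = (m : ZMod 4) + 4 := by ring
      rw [this, four_zero, add_zero]
    rw [hq, c1, r2, r3, r4'', pow_succ 4 m, pow_succ 2 m]
    refine ⟨?_, ?_, ?_, ?_⟩ <;> omega

lemma bound_closed (q : ℕ) (hq : 1 ≤ q) : 4 * bound q = 2 ^ q + 2 ^ (q / 2 + 1) := by
  rw [bound_eq]
  rcases Nat.even_or_odd' q with ⟨m, h | h⟩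
  · have hm : 1 ≤ m := by omega
    have h1 : q / 2 = m := by omega
    rw [h1, h, (closed m hm).1, pow_mul, pow_succ 2 m]
    ring
  · rcases Nat.eq_zero_or_pos m with h0 | hm
    · subst h0
      subst h
      decide
    · have h1 : q / 2 = m := by omega
      rw [h1, h]
      have r4 : (m : ZMod 4) + 3 + 1 = (m : ZMod 4) := by
        have : (m : ZMod 4) + 3 + 1 = (m : ZMod 4) + 4 := by ring
        rw [this, four_zero, add_zero]
      have h2 := T_succ (2 * m) ((m : ZMod 4) + 3)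
      rw [r4] at h2
      obtain ⟨c1, _, _, c4⟩ := closed m hm
      have e1 : (2 : ℕ) ^ (2 * m + 1) = 2 * 4 ^ m := by rw [pow_succ, pow_mul]; ring
      rw [h2, e1, pow_succ 2 m]
      omega

/-! ## Families -/

lemma le_bound {q : ℕ} {A : Set ℤ} (hA : (1 : ℤ) ∈ A) (F : Finset (Fin q → ℤ))
    (hF : Covering A (F : Set (Fin q → ℤ))) : F.card ≤ bound q := by
  have h1 := card_le F (fun u hu v hv huv => hF u (mem_coe.2 hu) v (mem_coe.2 hv) huv 1 hA)
  rw [card_filter_eq] at h1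
  exact h1

lemma mem_le {q : ℕ} {A : Set ℤ} (hA : (1 : ℤ) ∈ A) :
    ∀ n ∈ {n : ℕ | ∃ F : Finset (Fin q → ℤ), Covering A (F : Set (Fin q → ℤ)) ∧ F.card = n},
      n ≤ bound q := by
  rintro n ⟨F, hF, rfl⟩
  exact le_bound hA F hF

lemma maxSize_le {A : Set ℤ} (hA : (1 : ℤ) ∈ A) (q : ℕ) : maxSize A q ≤ bound q := by
  refine csSup_le ⟨0, ∅, ?_, rfl⟩ (mem_le hA)
  intro u hu
  simp at hu

lemma le_maxSize {q : ℕ} {A : Set ℤ} (hA : (1 : ℤ) ∈ A) (F : Finset (Fin q → ℤ))
    (hF : Covering A (F : Set (Fin q → ℤ))) : F.card ≤ maxSize A q :=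
  le_csSup ⟨bound q, mem_le hA⟩ ⟨F, hF, rfl⟩

lemma finite_of {q : ℕ} {A : Set ℤ} (hA : (1 : ℤ) ∈ A) (F : Set (Fin q → ℤ)) (hF : Covering A F) :
    F.Finite ∧ F.ncard ≤ bound q := by
  have hfin : F.Finite := by
    by_contra hinf
    obtain ⟨t, ht, hc⟩ := Set.Infinite.exists_subset_card_eq hinf (bound q + 1)
    have h1 := le_bound hA t (fun u hu v hv => hF u (ht hu) v (ht hv))
    omega
  refine ⟨hfin, ?_⟩
  rw [Set.ncard_eq_toFinset_card F hfin]
  apply le_bound hA
  rw [Set.Finite.coe_toFinset]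
  exact hF

/-- the `0/1` vectors with `k` ones -/
noncomputable def layer (q k : ℕ) : Finset (Fin q → ℤ) :=
  (powersetCard k (univ : Finset (Fin q))).image (fun A i => if i ∈ A then 1 else 0)

lemma layer_card (q k : ℕ) : (layer q k).card = q.choose k := by
  classical
  unfold layer
  rw [card_image_of_injective, card_powersetCard, card_univ, Fintype.card_fin]
  intro A B h
  ext i
  have h1 := congrFun h i
  by_cases hA : i ∈ A <;> by_cases hB : i ∈ B <;> simp_all

lemma exists_diff {q : ℕ} {A B : Finset (Fin q)} (hc : A.card = B.card) (hne : A ≠ B) :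
    ∃ i, i ∈ A ∧ i ∉ B := by
  by_contra hcon
  push Not at hcon
  exact hne (eq_of_subset_of_card_le (fun i hi => hcon i hi) hc.ge)

lemma layer_covering (q k : ℕ) : Covering {-1, 1} (layer q k : Set (Fin q → ℤ)) := by
  classical
  intro u hu v hv huv a ha
  unfold layer at hu hv
  rw [mem_coe, mem_image] at hu hv
  obtain ⟨A, hA, rfl⟩ := hu
  obtain ⟨B, hB, rfl⟩ := hv
  have hAB : A ≠ B := fun h => huv (by rw [h])
  have hc : A.card = B.card := (mem_powersetCard.1 hA).2.trans (mem_powersetCard.1 hB).2.symm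
  rcases ha with rfl | ha
  · obtain ⟨i, h1, h2⟩ := exists_diff hc.symm hAB.symm
    exact ⟨i, by simp [h1, h2]⟩
  · rw [Set.mem_singleton_iff] at ha
    subst ha
    obtain ⟨i, h1, h2⟩ := exists_diff hc hAB
    exact ⟨i, by simp [h1, h2]⟩

/-- **Covering families have at most `(1/4 + o(1)) 2 ^ q` members.** -/
theorem result :
    -- (1) the bound
    (∀ (q : ℕ) (A : Set ℤ) (F : Set (Fin q → ℤ)), 1 ∈ A → Covering A F → F.Finite ∧ F.ncard ≤ bound q) ∧
    -- (2) its value
    (∀ q : ℕ, 1 ≤ q → 4 * bound q = 2 ^ q + 2 ^ (q / 2 + 1)) ∧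
    -- (3) the maximum `F(q)` of the problem
    (∀ q : ℕ, 1 ≤ q → 4 * maxSize {-1, 0, 1} q ≤ 2 ^ q + 2 ^ (q / 2 + 1)) ∧
    (∀ ε : ℝ, 0 < ε → ∀ᶠ q : ℕ in atTop, (maxSize {-1, 0, 1} q : ℝ) ≤ (1 / 4 + ε) * 2 ^ q) ∧
    -- (4) small dimensions, without the requirement on `0`
    (∀ q : ℕ, q ≤ 6 → maxSize {-1, 1} q = q.choose (q / 2)) ∧
    (35 ≤ maxSize {-1, 1} 7 ∧ maxSize {-1, 1} 7 ≤ 36) := by
  have m1 : (1 : ℤ) ∈ ({-1, 0, 1} : Set ℤ) := by simp
  have m2 : (1 : ℤ) ∈ ({-1, 1} : Set ℤ) := by simp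
  have h3 : ∀ q : ℕ, 1 ≤ q → 4 * maxSize {-1, 0, 1} q ≤ 2 ^ q + 2 ^ (q / 2 + 1) := by
    intro q hq
    rw [← bound_closed q hq]
    exact Nat.mul_le_mul_left 4 (maxSize_le m1 q)
  have hlow : ∀ q : ℕ, q.choose (q / 2) ≤ maxSize {-1, 1} q := by
    intro q
    rw [← layer_card q (q / 2)]
    exact le_maxSize m2 _ (layer_covering q (q / 2))
  refine ⟨fun q A F hA hF => finite_of hA F hF, bound_closed, h3, ?_, ?_, ?_, ?_⟩
  · intro ε hε
    obtain ⟨n, hn⟩ := pow_unbounded_of_one_lt (1 / ε) (one_lt_two : (1 : ℝ) < 2)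
    filter_upwards [eventually_ge_atTop (2 * n + 2)] with q hq
    have h4 : (4 : ℝ) * (maxSize {-1, 0, 1} q : ℝ) ≤ 2 ^ q + 2 ^ (q / 2 + 1) := by
      exact_mod_cast h3 q (by omega)
    have h5 : (2 : ℝ) ^ q = 2 ^ (q / 2) * 2 ^ (q - q / 2) := by
      rw [← pow_add]
      congr 1
      omega
    have h6 : (2 : ℝ) ^ n ≤ 2 ^ (q - q / 2) := pow_le_pow_right₀ one_le_two (by omega)
    have h7 : (1 : ℝ) ≤ ε * 2 ^ (q - q / 2) := by
      rw [div_lt_iff₀ hε] at hn
      nlinarith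
    have h8 : (0 : ℝ) < 2 ^ (q / 2) := by positivity
    have h9 : (2 : ℝ) ^ (q / 2) ≤ ε * 2 ^ q := by
      rw [h5]
      nlinarith
    have h10 : (2 : ℝ) ^ (q / 2 + 1) = 2 * 2 ^ (q / 2) := by rw [pow_succ]; ring
    rw [h10] at h4
    have h11 : (0 : ℝ) < ε * 2 ^ q := by positivity
    nlinarith
  · intro q hq
    apply le_antisymm _ (hlow q)
    refine (maxSize_le m2 q).trans (le_of_eq ?_)
    interval_cases q <;> decide
  · exact hlow 7
  · exact (maxSize_le m2 7).trans (by decide)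

end Pool.Agent.Results.MP_f4ab27_co.QuarterBound
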