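import Mathlib

/-!
# MP_f4ab27_co: `F(q) ≤ R(3, q) ≤ (1/6 + o(1)) 2 ^ q`

A family `F` of vectors is `A`-covering if for all distinct `u, v ∈ F` every `a ∈ A` is a coordinate of `u - v`.
`F(q)` is the maximum size of a `{-1, 0, 1}`-covering family in `ℤ ^ q`, and `R(3, q)` the maximum size of a family in
`(ℤ / 3) ^ q` which is covering for all elements of `ℤ / 3`. We show that `F(q) ≤ R(3, q) ≤ bound q`, where `bound q` is
the number of the subsets of a set with `q` elements whose size is congruent to `⌊q / 2⌋` modulo `6`.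

Proof (inertia bound with complex weights). Let `w = exp(2 π i / 3)`, `j₀ = q - ⌊q / 2⌋` and
`Ψ(d) = (-1) ^ j₀ (w ^ (2 j₀) ∏ (w ^ d_j - w) + w ^ j₀ ∏ (w ^ d_j - w²) + ∏ (w ^ d_j - 1))`, `d ∈ (ℤ / 3) ^ q`.
If all elements of `ℤ / 3` are coordinates of `d` then `Ψ(d) = 0`, and `Ψ(0) > 0`. The coefficient of
`∏_{j ∈ A} w ^ d_j` in `Ψ` is `3 (-1) ^ (j₀ + j)`, `j = q - |A|`, if `j` is congruent to `j₀` modulo `3`, and `0` otherwise,
so it is positive only if `j` is congruent to `j₀` modulo `6`, that is, `|A|` to `⌊q / 2⌋`. If `F` had more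
members than there are such sets `A`, some `b ≠ 0` on `F` would be orthogonal to the corresponding characters, and
`Ψ(0) ‖b‖² = ∑_{u, v} b_u conj (b_v) Ψ(u - v) ≤ 0`, a contradiction.
-/

set_option autoImplicit false

namespace Pool.Agent.Results.MP_f4ab27_co.SixthBound

open Finset Complex Filter

/-- For all distinct `u, v ∈ F` every element of `A` is a coordinate of `u - v`. -/
def Covering {R : Type} [Sub R] {q : ℕ} (A : Set R) (F : Set (Fin q → R)) : Prop :=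
  ∀ u ∈ F, ∀ v ∈ F, u ≠ v → ∀ a ∈ A, ∃ i, u i - v i = a

/-- The sum of the binomial coefficients `q` over `k`, `k ≤ q`, `k` congruent to `⌊q / 2⌋` modulo `6`. -/
def bound (q : ℕ) : ℕ := ∑ k ∈ (range (q + 1)).filter (fun k => k % 6 = q / 2 % 6), q.choose k

/-- `F(q)`: the supremum of the sizes of the finite `{-1, 0, 1}`-covering families in `ℤ ^ q`. -/
noncomputable def maxF (q : ℕ) : ℕ :=
  sSup {n : ℕ | ∃ F : Finset (Fin q → ℤ), Covering ({-1, 0, 1} : Set ℤ) (F : Set (Fin q → ℤ)) ∧ F.card = n}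

/-- `R(3, q)`: the supremum of the sizes of the families in `(ℤ / 3) ^ q` which are covering for all elements of
`ℤ / 3`. -/
noncomputable def maxR (q : ℕ) : ℕ :=
  sSup {n : ℕ | ∃ F : Finset (Fin q → ZMod 3), Covering Set.univ (F : Set (Fin q → ZMod 3)) ∧ F.card = n}

/-! ## The inertia bound -/

noncomputable def w : ℂ := ⟨-1 / 2, Real.sqrt 3 / 2⟩

lemma w_quad : w ^ 2 + w + 1 = 0 := by
  have h3 : Real.sqrt 3 * Real.sqrt 3 = 3 := Real.mul_self_sqrt (by norm_num)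
  apply Complex.ext
  · simp only [w, pow_two, add_re, mul_re, one_re, zero_re]
    nlinarith
  · simp only [w, pow_two, add_im, mul_im, one_im, zero_im]
    ring

lemma w_sq : w ^ 2 = -1 - w := by linear_combination w_quad

lemma w_cube : w ^ 3 = 1 := by linear_combination (w - 1) * w_quad

lemma w_conj : (starRingEnd ℂ) w = w ^ 2 := by
  rw [w_sq]
  apply Complex.ext
  · simp only [w, conj_re, sub_re, neg_re, one_re]
    norm_num
  · simp only [w, conj_im, sub_im, neg_im, one_im]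
    ring

lemma w_ne : w ≠ 0 := by
  intro h
  have := w_cube
  rw [h] at this
  norm_num at this

lemma w_mod (n : ℕ) : w ^ (n % 3) = w ^ n := by
  conv_rhs => rw [← Nat.div_add_mod n 3, pow_add, pow_mul, w_cube, one_pow, one_mul]

noncomputable def e (a : ZMod 3) : ℂ := w ^ a.val

lemma e_add (a b : ZMod 3) : e (a + b) = e a * e b := by
  unfold e
  rw [ZMod.val_add, w_mod, pow_add]

lemma e_zero : e 0 = 1 := by unfold e; simp

lemma e_ne (a : ZMod 3) : e a ≠ 0 := pow_ne_zero _ w_ne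

lemma e_neg (a : ZMod 3) : e (-a) = (starRingEnd ℂ) (e a) := by
  have h1 : e (-a) * e a = 1 := by rw [← e_add, neg_add_cancel, e_zero]
  have h2 : (starRingEnd ℂ) (e a) * e a = 1 := by
    unfold e
    rw [map_pow, w_conj, ← mul_pow]
    have : w ^ 2 * w = 1 := by rw [← pow_succ]; exact w_cube
    rw [this, one_pow]
  exact mul_right_cancel₀ (e_ne a) (h1.trans h2.symm)

lemma e_sum {ι : Type} (s : Finset ι) (f : ι → ZMod 3) : ∏ j ∈ s, e (f j) = e (∑ j ∈ s, f j) := by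
  classical
  induction s using Finset.induction_on with
  | empty => simp [e]
  | insert i s hi ih => rw [prod_insert hi, sum_insert hi, e_add, ih]

noncomputable def Pr {q : ℕ} (t : ℂ) (d : Fin q → ZMod 3) : ℂ := ∏ j, (e (d j) + t)

lemma Pr_zero {q : ℕ} (t : ℂ) (d : Fin q → ZMod 3) (i : Fin q) (h : e (d i) + t = 0) : Pr t d = 0 := by
  unfold Pr
  exact prod_eq_zero (mem_univ i) h

lemma Pr_expand {q : ℕ} (t : ℂ) (d : Fin q → ZMod 3) :
    Pr t d = ∑ A : Finset (Fin q), t ^ (q - A.card) * e (∑ j ∈ A, d j) := by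
  classical
  unfold Pr
  rw [prod_add, powerset_univ]
  refine sum_congr rfl fun A _ => ?_
  rw [e_sum, prod_const, card_sdiff_of_subset (subset_univ A), card_univ, Fintype.card_fin, mul_comm]

/-- the coefficients -/
noncomputable def cc (j₀ j : ℕ) : ℂ :=
  (-1) ^ j₀ * (w ^ (2 * j₀) * (-w) ^ j + w ^ j₀ * (-w ^ 2) ^ j + (-1) ^ j)

noncomputable def Psi {q : ℕ} (j₀ : ℕ) (d : Fin q → ZMod 3) : ℂ :=
  (-1) ^ j₀ * (w ^ (2 * j₀) * Pr (-w) d + w ^ j₀ * Pr (-w ^ 2) d + Pr (-1) d)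

lemma Psi_expand {q : ℕ} (j₀ : ℕ) (d : Fin q → ZMod 3) :
    Psi j₀ d = ∑ A : Finset (Fin q), cc j₀ (q - A.card) * e (∑ j ∈ A, d j) := by
  unfold Psi cc
  rw [Pr_expand, Pr_expand, Pr_expand]
  simp only [mul_sum, ← sum_add_distrib]
  refine sum_congr rfl fun A _ => ?_
  ring

lemma Psi_cov {q : ℕ} (j₀ : ℕ) (d : Fin q → ZMod 3) (h : ∀ a : ZMod 3, ∃ i, d i = a) : Psi j₀ d = 0 := by
  obtain ⟨i0, h0⟩ := h 0
  obtain ⟨i1, h1⟩ := h 1
  obtain ⟨i2, h2⟩ := h 2
  have e1 : e 1 = w := by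
    unfold e
    have : (1 : ZMod 3).val = 1 := by decide
    rw [this, pow_one]
  have e2 : e 2 = w ^ 2 := by
    unfold e
    have : (2 : ZMod 3).val = 2 := by decide
    rw [this]
  unfold Psi
  rw [Pr_zero (-w) d i1 (by rw [h1, e1]; ring), Pr_zero (-w ^ 2) d i2 (by rw [h2, e2]; ring),
    Pr_zero (-1) d i0 (by rw [h0, e_zero]; ring)]
  ring

lemma cc_eq (j₀ j : ℕ) :
    cc j₀ j = (-1) ^ (j₀ + j) * (w ^ (2 * j₀ + j) + w ^ (2 * (2 * j₀ + j)) + 1) := by
  unfold cc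
  have h1 : w ^ (2 * (2 * j₀ + j)) = w ^ j₀ * (w ^ 2) ^ j := by
    have : 2 * (2 * j₀ + j) = 3 * j₀ + (j₀ + 2 * j) := by ring
    rw [this, pow_add, pow_mul, w_cube, one_pow, one_mul, pow_add, pow_mul]
  rw [h1, neg_pow w j, neg_pow (w ^ 2) j, pow_add (-1 : ℂ), pow_add w]
  ring

lemma cc_re {j₀ j : ℕ} (h : j % 6 ≠ j₀ % 6) : (cc j₀ j).re ≤ 0 := by
  rw [cc_eq]
  set n := 2 * j₀ + j with hn
  have h2 : w ^ (2 * n) = (w ^ n) ^ 2 := by rw [← pow_mul, mul_comm]
  rw [h2, ← w_mod n]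
  have hlt : n % 3 < 3 := Nat.mod_lt _ (by norm_num)
  have hc : n % 3 = 0 ∨ n % 3 = 1 ∨ n % 3 = 2 := by omega
  rcases hc with hc | hc | hc
  · have hodd : Odd (j₀ + j) := by
      rw [Nat.odd_iff]
      omega
    rw [hc, hodd.neg_one_pow]
    norm_num
  · rw [hc, pow_one]
    have : w + w ^ 2 + 1 = 0 := by linear_combination w_quad
    rw [this, mul_zero, zero_re]
  · rw [hc]
    have : w ^ 2 + (w ^ 2) ^ 2 + 1 = 0 := by linear_combination (w ^ 2 - w + 1) * w_quad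
    rw [this, mul_zero, zero_re]

lemma Psi_zero_re {q : ℕ} (hq : 1 ≤ q) : 0 < (Psi (q - q / 2) (fun _ : Fin q => (0 : ZMod 3))).re := by
  have hP : ∀ t : ℂ, Pr t (fun _ : Fin q => (0 : ZMod 3)) = (1 + t) ^ q := by
    intro t
    unfold Pr
    rw [prod_const, card_univ, Fintype.card_fin, e_zero]
  have h0 : (1 + -1 : ℂ) ^ q = 0 := by
    rw [add_neg_cancel]
    exact zero_pow (by omega)
  have a1 : (1 + -w) ^ 2 = -3 * w := by linear_combination w_quad
  have a2 : (1 + -w ^ 2) ^ 2 = -3 * w ^ 2 := by linear_combination (w ^ 2 - w + 1) * w_quad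
  have s3 : (-3 : ℂ) = (-1) * 3 := by norm_num
  unfold Psi
  rw [hP, hP, hP, h0, add_zero]
  rcases Nat.even_or_odd' q with ⟨m, h | h⟩
  · have hj : q - q / 2 = m := by omega
    rw [hj, h, pow_mul (1 + -w), pow_mul (1 + -w ^ 2), a1, a2]
    have e1 : (-1 : ℂ) ^ m * (w ^ (2 * m) * (-3 * w) ^ m + w ^ m * (-3 * w ^ 2) ^ m) =
        ((2 * 3 ^ m : ℝ) : ℂ) := by
      have f1 : w ^ (2 * m) * (-3 * w) ^ m = (-3) ^ m := by
        rw [mul_pow, pow_mul]
        have : (w ^ 2) ^ m * ((-3) ^ m * w ^ m) = (-3) ^ m * (w ^ 3) ^ m := by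
          rw [show w ^ 3 = w ^ 2 * w from pow_succ w 2, mul_pow]; ring
        rw [this, w_cube, one_pow, mul_one]
      have f2 : w ^ m * (-3 * w ^ 2) ^ m = (-3) ^ m := by
        rw [mul_pow]
        have : w ^ m * ((-3) ^ m * (w ^ 2) ^ m) = (-3) ^ m * (w ^ 3) ^ m := by
          rw [show w ^ 3 = w ^ 2 * w from pow_succ w 2, mul_pow]; ring
        rw [this, w_cube, one_pow, mul_one]
      rw [f1, f2, s3, mul_pow]
      push_cast
      have : (-1 : ℂ) ^ m * (-1) ^ m = 1 := by rw [← mul_pow]; norm_num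
      linear_combination 2 * 3 ^ m * this
    rw [e1, ofReal_re]
    positivity
  · have hj : q - q / 2 = m + 1 := by omega
    rw [hj, h, pow_succ (1 + -w), pow_succ (1 + -w ^ 2), pow_mul (1 + -w), pow_mul (1 + -w ^ 2), a1, a2]
    have e1 : (-1 : ℂ) ^ (m + 1) * (w ^ (2 * (m + 1)) * ((-3 * w) ^ m * (1 + -w)) +
        w ^ (m + 1) * ((-3 * w ^ 2) ^ m * (1 + -w ^ 2))) = ((3 ^ (m + 1) : ℝ) : ℂ) := by
      have f1 : w ^ (2 * (m + 1)) * (-3 * w) ^ m = (-3) ^ m * w ^ 2 := by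
        rw [mul_pow, pow_mul, pow_succ]
        have : (w ^ 2) ^ m * w ^ 2 * ((-3) ^ m * w ^ m) = (-3) ^ m * (w ^ 3) ^ m * w ^ 2 := by
          rw [show w ^ 3 = w ^ 2 * w from pow_succ w 2, mul_pow]; ring
        rw [this, w_cube, one_pow, mul_one]
      have f2 : w ^ (m + 1) * (-3 * w ^ 2) ^ m = (-3) ^ m * w := by
        rw [mul_pow, pow_succ]
        have : w ^ m * w * ((-3) ^ m * (w ^ 2) ^ m) = (-3) ^ m * (w ^ 3) ^ m * w := by
          rw [show w ^ 3 = w ^ 2 * w from pow_succ w 2, mul_pow]; ring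
        rw [this, w_cube, one_pow, mul_one]
      rw [← mul_assoc (w ^ (2 * (m + 1))), ← mul_assoc (w ^ (m + 1)), f1, f2]
      have f3 : (-3 : ℂ) ^ m * w ^ 2 * (1 + -w) + (-3) ^ m * w * (1 + -w ^ 2) = (-3) ^ (m + 1) := by
        rw [pow_succ]
        linear_combination (-3 : ℂ) ^ m * (1 - 2 * w + 2) * w_quad - (-3 : ℂ) ^ m * 0 * w_cube
      rw [f3, s3, mul_pow]
      push_cast
      have : (-1 : ℂ) ^ (m + 1) * (-1) ^ (m + 1) = 1 := by rw [← mul_pow]; norm_num
      linear_combination 3 ^ (m + 1) * this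
    rw [e1, ofReal_re]
    positivity

/-- the inertia bound -/
theorem card_le {q : ℕ} (hq : 1 ≤ q) (F : Finset (Fin q → ZMod 3))
    (hF : ∀ u ∈ F, ∀ v ∈ F, u ≠ v → ∀ a : ZMod 3, ∃ i, u i - v i = a) :
    F.card ≤ ((univ : Finset (Finset (Fin q))).filter (fun A => A.card % 6 = q / 2 % 6)).card := by
  classical
  by_contra hcon
  push Not at hcon
  set P := (univ : Finset (Finset (Fin q))).filter (fun A => A.card % 6 = q / 2 % 6) with hP
  let L : (F → ℂ) →ₗ[ℂ] (P → ℂ) :=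
    { toFun := fun b A => ∑ u : F, b u * e (∑ j ∈ A.1, u.1 j)
      map_add' := by
        intro b b'
        funext A
        simp only [Pi.add_apply, add_mul, sum_add_distrib]
      map_smul' := by
        intro c b
        funext A
        simp only [Pi.smul_apply, smul_eq_mul, RingHom.id_apply, mul_sum, mul_assoc] }
  have hker : LinearMap.ker L ≠ ⊥ := by
    apply LinearMap.ker_ne_bot_of_finrank_lt
    rw [Module.finrank_fintype_fun_eq_card, Module.finrank_fintype_fun_eq_card, Fintype.card_coe,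
      Fintype.card_coe]
    exact hcon
  obtain ⟨b, hb, hb0⟩ := Submodule.exists_mem_ne_zero_of_ne_bot hker
  set y : Finset (Fin q) → ℂ := fun A => ∑ u : F, b u * e (∑ j ∈ A, u.1 j) with hydef
  have hy : ∀ A : Finset (Fin q), A.card % 6 = q / 2 % 6 → y A = 0 := by
    intro A hA
    have h1 : A ∈ P := mem_filter.2 ⟨mem_univ _, hA⟩
    have h2 : L b = 0 := hb
    exact congrFun h2 ⟨A, h1⟩
  set S : ℝ := ∑ u : F, normSq (b u) with hS
  have hSpos : 0 < S := by
    obtain ⟨u, hu⟩ := Function.ne_iff.1 hb0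
    exact sum_pos' (fun _ _ => normSq_nonneg _) ⟨u, mem_univ _, normSq_pos.2 hu⟩
  set j₀ := q - q / 2 with hj₀
  set Z : ℂ := Psi j₀ (fun _ : Fin q => (0 : ZMod 3)) with hZ
  have hident : ∀ u : F, ∑ v : F, b u * (starRingEnd ℂ) (b v) * Psi j₀ (fun j => u.1 j - v.1 j) =
      (normSq (b u) : ℂ) * Z := by
    intro u
    rw [sum_eq_single u]
    · simp only [sub_self]
      rw [mul_conj]
    · intro v _ hv
      have hne : u.1 ≠ v.1 := fun h => hv (Subtype.ext h.symm)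
      rw [Psi_cov j₀ _ (hF u.1 u.2 v.1 v.2 hne), mul_zero]
    · intro h
      exact absurd (mem_univ u) h
  have key : (S : ℂ) * Z = ∑ A : Finset (Fin q), cc j₀ (q - A.card) * (normSq (y A) : ℂ) := by
    have h1 : (S : ℂ) * Z = ∑ u : F, ∑ v : F,
        b u * (starRingEnd ℂ) (b v) * Psi j₀ (fun j => u.1 j - v.1 j) := by
      rw [hS]
      push_cast
      rw [sum_mul]
      exact (sum_congr rfl fun u _ => hident u).symm
    rw [h1]
    have h2 : ∀ A : Finset (Fin q), cc j₀ (q - A.card) * (normSq (y A) : ℂ) =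
        ∑ u : F, ∑ v : F, b u * (starRingEnd ℂ) (b v) *
          (cc j₀ (q - A.card) * e (∑ j ∈ A, (u.1 j - v.1 j))) := by
      intro A
      rw [← mul_conj, hydef, map_sum, sum_mul_sum, mul_sum]
      refine sum_congr rfl fun u _ => ?_
      rw [mul_sum]
      refine sum_congr rfl fun v _ => ?_
      rw [map_mul, ← e_neg, sum_sub_distrib, sub_eq_add_neg, e_add]
      ring
    simp_rw [h2, Psi_expand, mul_sum]
    calc ∑ u : F, ∑ v : F, ∑ A : Finset (Fin q), b u * (starRingEnd ℂ) (b v) *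
          (cc j₀ (q - A.card) * e (∑ j ∈ A, (u.1 j - v.1 j)))
        = ∑ u : F, ∑ A : Finset (Fin q), ∑ v : F, b u * (starRingEnd ℂ) (b v) *
          (cc j₀ (q - A.card) * e (∑ j ∈ A, (u.1 j - v.1 j))) :=
          sum_congr rfl fun u _ => sum_comm
      _ = _ := sum_comm
  have hre := congrArg Complex.re key
  rw [re_sum, re_ofReal_mul] at hre
  have hneg : ∑ A : Finset (Fin q), (cc j₀ (q - A.card) * (normSq (y A) : ℂ)).re ≤ 0 := by
    refine sum_nonpos fun A _ => ?_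
    rw [re_mul_ofReal]
    by_cases hA : A.card % 6 = q / 2 % 6
    · rw [hy A hA, map_zero, mul_zero]
    · have hAq : A.card ≤ q := by
        have := Finset.card_le_univ A
        rwa [Fintype.card_fin] at this
      refine mul_nonpos_of_nonpos_of_nonneg (cc_re ?_) (normSq_nonneg _)
      omega
  have hpos : 0 < S * Z.re := mul_pos hSpos (Psi_zero_re hq)
  linarith

/-! ## The number of the good sets -/

lemma card_filter_eq (q r : ℕ) :
    ((univ : Finset (Finset (Fin q))).filter (fun A => A.card % 6 = r)).card =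
      ∑ k ∈ (range (q + 1)).filter (fun k => k % 6 = r), q.choose k := by
  classical
  rw [card_eq_sum_card_fiberwise (f := fun A : Finset (Fin q) => A.card)
    (t := (range (q + 1)).filter (fun k => k % 6 = r))]
  · refine sum_congr rfl fun k hk => ?_
    rw [mem_filter] at hk
    have h1 : (((univ : Finset (Finset (Fin q))).filter (fun A => A.card % 6 = r)).filter
        (fun A => A.card = k)) = powersetCard k univ := by
      ext A
      simp only [mem_filter, mem_univ, true_and, mem_powersetCard, subset_univ]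
      constructor
      · rintro ⟨_, h⟩
        exact h
      · intro h
        exact ⟨by rw [h]; exact hk.2, h⟩
    rw [h1, card_powersetCard, card_univ, Fintype.card_fin]
  · intro A hA
    have hA' := (mem_filter.1 (mem_coe.1 hA)).2
    rw [mem_coe, mem_filter]
    refine ⟨mem_range.2 (Nat.lt_succ_of_le ?_), hA'⟩
    have := Finset.card_le_univ A
    rwa [Fintype.card_fin] at this

def T (q : ℕ) (r : ZMod 6) : ℕ := ∑ k ∈ range (q + 1), if (k : ZMod 6) = r then q.choose k else 0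

lemma bound_eq (q : ℕ) : bound q = T q ((q / 2 : ℕ) : ZMod 6) := by
  unfold bound T
  rw [sum_filter]
  refine sum_congr rfl fun k _ => ?_
  have : k % 6 = q / 2 % 6 ↔ (k : ZMod 6) = ((q / 2 : ℕ) : ZMod 6) :=
    (ZMod.natCast_eq_natCast_iff' k (q / 2) 6).symm
  simp only [this]

lemma T_succ (q : ℕ) (r : ZMod 6) : T (q + 1) (r + 1) = T q (r + 1) + T q r := by
  unfold T
  rw [sum_range_succ']
  have h1 : ∀ k ∈ range (q + 1),
      (if ((k + 1 : ℕ) : ZMod 6) = r + 1 then (q + 1).choose (k + 1) else 0) =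
      (if (k : ZMod 6) = r then q.choose k else 0) +
      (if ((k + 1 : ℕ) : ZMod 6) = r + 1 then q.choose (k + 1) else 0) := by
    intro k _
    have h2 : ((k + 1 : ℕ) : ZMod 6) = r + 1 ↔ (k : ZMod 6) = r := by
      push_cast
      exact add_left_inj 1
    by_cases h : (k : ZMod 6) = r
    · rw [if_pos (h2.2 h), if_pos h, if_pos (h2.2 h), Nat.choose_succ_succ]
    · rw [if_neg (fun hh => h (h2.1 hh)), if_neg h, if_neg (fun hh => h (h2.1 hh))]
  rw [sum_congr rfl h1, sum_add_distrib]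
  have h3 : ∑ k ∈ range (q + 1), (if (k : ZMod 6) = r + 1 then q.choose k else 0) =
      ∑ k ∈ range (q + 1), (if ((k + 1 : ℕ) : ZMod 6) = r + 1 then q.choose (k + 1) else 0) +
      (if ((0 : ℕ) : ZMod 6) = r + 1 then q.choose 0 else 0) := by
    rw [← sum_range_succ' (fun k : ℕ => if (k : ZMod 6) = r + 1 then q.choose k else 0) (q + 1),
      sum_range_succ _ (q + 1), Nat.choose_succ_self]
    simp
  rw [h3]
  simp only [Nat.choose_zero_right]
  ring

lemma T_two (q : ℕ) (r : ZMod 6) : T (q + 2) (r + 2) = T q (r + 2) + 2 * T q (r + 1) + T q r := by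
  have e : r + 2 = r + 1 + 1 := by ring
  rw [e, T_succ (q + 1) (r + 1), T_succ q (r + 1), T_succ q r]
  ring

/-- the values `T (2 m) (m + i)` -/
lemma T_step (m : ℕ) (i : ZMod 6) : T (2 * (m + 1)) (((m + 1 : ℕ) : ZMod 6) + i) =
    T (2 * m) ((m : ZMod 6) + (i + 1)) + 2 * T (2 * m) ((m : ZMod 6) + i) +
      T (2 * m) ((m : ZMod 6) + (i - 1)) := by
  have h := T_two (2 * m) ((m : ZMod 6) + (i - 1))
  have hq : 2 * (m + 1) = 2 * m + 2 := by ring
  have c1 : ((m + 1 : ℕ) : ZMod 6) + i = (m : ZMod 6) + (i - 1) + 2 := by push_cast; ring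
  have c2 : (m : ZMod 6) + (i - 1) + 2 = (m : ZMod 6) + (i + 1) := by ring
  have c3 : (m : ZMod 6) + (i - 1) + 1 = (m : ZMod 6) + i := by ring
  rw [hq, c1, h, c2, c3]

lemma closed (m : ℕ) (hm : 1 ≤ m) :
    6 * T (2 * m) ((m : ZMod 6) + 0) = 4 ^ m + 2 * 3 ^ m + 2 ∧
      6 * T (2 * m) ((m : ZMod 6) + 1) + 1 = 4 ^ m + 3 ^ m ∧
      6 * T (2 * m) ((m : ZMod 6) + 2) + 3 ^ m + 1 = 4 ^ m ∧
      6 * T (2 * m) ((m : ZMod 6) + 3) + 2 * 3 ^ m = 4 ^ m + 2 ∧
      6 * T (2 * m) ((m : ZMod 6) + 4) + 3 ^ m + 1 = 4 ^ m ∧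
      6 * T (2 * m) ((m : ZMod 6) + 5) + 1 = 4 ^ m + 3 ^ m := by
  induction m, hm using Nat.le_induction with
  | base => decide
  | succ m hm ih =>
    obtain ⟨h0, h1, h2, h3, h4, h5⟩ := ih
    have a0 := T_step m 0
    have a1 := T_step m 1
    have a2 := T_step m 2
    have a3 := T_step m 3
    have a4 := T_step m 4
    have a5 := T_step m 5
    have z1 : (0 : ZMod 6) + 1 = 1 := by decide
    have z2 : (0 : ZMod 6) - 1 = 5 := by decide
    have z3 : (1 : ZMod 6) + 1 = 2 := by decide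
    have z4 : (1 : ZMod 6) - 1 = 0 := by decide
    have z5 : (2 : ZMod 6) + 1 = 3 := by decide
    have z6 : (2 : ZMod 6) - 1 = 1 := by decide
    have z7 : (3 : ZMod 6) + 1 = 4 := by decide
    have z8 : (3 : ZMod 6) - 1 = 2 := by decide
    have z9 : (4 : ZMod 6) + 1 = 5 := by decide
    have z10 : (4 : ZMod 6) - 1 = 3 := by decide
    have z11 : (5 : ZMod 6) + 1 = 0 := by decide
    have z12 : (5 : ZMod 6) - 1 = 4 := by decide
    rw [z1, z2] at a0
    rw [z3, z4] at a1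
    rw [z5, z6] at a2
    rw [z7, z8] at a3
    rw [z9, z10] at a4
    rw [z11, z12] at a5
    rw [pow_succ 4 m, pow_succ 3 m]
    refine ⟨?_, ?_, ?_, ?_, ?_, ?_⟩ <;> omega

lemma bound_even (m : ℕ) (hm : 1 ≤ m) : 6 * bound (2 * m) = 2 ^ (2 * m) + 2 * 3 ^ m + 2 := by
  have h1 : 2 * m / 2 = m := by omega
  have h2 := (closed m hm).1
  rw [add_zero] at h2
  rw [bound_eq, h1, h2, pow_mul]
  norm_num

lemma bound_odd (m : ℕ) : 6 * bound (2 * m + 1) = 2 ^ (2 * m + 1) + 3 ^ (m + 1) + 1 := by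
  have h1 : (2 * m + 1) / 2 = m := by omega
  rw [bound_eq, h1]
  rcases Nat.eq_zero_or_pos m with h0 | hm
  · subst h0
    decide
  · have h2 := T_succ (2 * m) ((m : ZMod 6) + 5)
    have r4 : (m : ZMod 6) + 5 + 1 = (m : ZMod 6) := by
      have : (5 : ZMod 6) + 1 = 0 := by decide
      rw [add_assoc, this, add_zero]
    rw [r4] at h2
    obtain ⟨c0, _, _, _, _, c5⟩ := closed m hm
    rw [add_zero] at c0
    have e1 : (2 : ℕ) ^ (2 * m + 1) = 2 * 4 ^ m := by rw [pow_succ, pow_mul]; ring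
    rw [h2, e1, pow_succ 3 m]
    omega

lemma bound_le (q : ℕ) (hq : 1 ≤ q) : 6 * bound q ≤ 2 ^ q + 5 * 3 ^ (q / 2) := by
  have h3 : 1 ≤ 3 ^ (q / 2) := Nat.one_le_pow _ _ (by norm_num)
  rcases Nat.even_or_odd' q with ⟨m, h | h⟩
  · have h1 : q / 2 = m := by omega
    have h2 := bound_even m (by omega)
    rw [h1] at h3 ⊢
    rw [h]
    omega
  · have h1 : q / 2 = m := by omega
    have h2 := bound_odd m
    rw [h1] at h3 ⊢
    rw [h, pow_succ 3 m] at *
    omega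

/-! ## Families -/

lemma le_boundR {q : ℕ} (hq : 1 ≤ q) (F : Finset (Fin q → ZMod 3))
    (hF : Covering Set.univ (F : Set (Fin q → ZMod 3))) : F.card ≤ bound q := by
  have h1 := card_le hq F (fun u hu v hv huv a => hF u (mem_coe.2 hu) v (mem_coe.2 hv) huv a (Set.mem_univ a))
  rw [card_filter_eq] at h1
  exact h1

lemma reduce {q : ℕ} (F : Finset (Fin q → ℤ)) (hF : Covering ({-1, 0, 1} : Set ℤ) (F : Set (Fin q → ℤ))) :
    ∃ G : Finset (Fin q → ZMod 3), Covering Set.univ (G : Set (Fin q → ZMod 3)) ∧ G.card = F.card := by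
  classical
  refine ⟨F.image (fun u i => ((u i : ℤ) : ZMod 3)), ?_, ?_⟩
  · intro u' hu' v' hv' hne a _
    rw [mem_coe, mem_image] at hu' hv'
    obtain ⟨u, hu, rfl⟩ := hu'
    obtain ⟨v, hv, rfl⟩ := hv'
    have huv : u ≠ v := fun h => hne (by rw [h])
    have h0 := hF u (mem_coe.2 hu) v (mem_coe.2 hv) huv
    have ha : a = 0 ∨ a = 1 ∨ a = -1 := by revert a; decide
    rcases ha with rfl | rfl | rfl
    · obtain ⟨i, hi⟩ := h0 0 (by simp)
      exact ⟨i, by rw [← Int.cast_sub, hi, Int.cast_zero]⟩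
    · obtain ⟨i, hi⟩ := h0 1 (by simp)
      exact ⟨i, by rw [← Int.cast_sub, hi, Int.cast_one]⟩
    · obtain ⟨i, hi⟩ := h0 (-1) (by simp)
      exact ⟨i, by rw [← Int.cast_sub, hi, Int.cast_neg, Int.cast_one]⟩
  · apply card_image_of_injOn
    intro u hu v hv huv
    by_contra hne
    obtain ⟨i, hi⟩ := hF u hu v hv hne 1 (by simp)
    have h1 : ((u i : ℤ) : ZMod 3) = ((v i : ℤ) : ZMod 3) := congrFun huv i
    have h2 : ((u i - v i : ℤ) : ZMod 3) = 1 := by rw [hi, Int.cast_one]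
    rw [Int.cast_sub, h1, sub_self] at h2
    exact absurd h2 (by decide)

lemma le_maxR {q : ℕ} (hq : 1 ≤ q) (F : Finset (Fin q → ZMod 3))
    (hF : Covering Set.univ (F : Set (Fin q → ZMod 3))) : F.card ≤ maxR q := by
  refine le_csSup ⟨bound q, ?_⟩ ⟨F, hF, rfl⟩
  rintro n ⟨G, hG, rfl⟩
  exact le_boundR hq G hG

lemma maxR_le {q : ℕ} (hq : 1 ≤ q) : maxR q ≤ bound q := by
  refine csSup_le ⟨0, ∅, ?_, rfl⟩ ?_
  · intro u hu
    simp at hu
  · rintro n ⟨G, hG, rfl⟩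
    exact le_boundR hq G hG

lemma maxF_le {q : ℕ} (hq : 1 ≤ q) : maxF q ≤ maxR q := by
  refine csSup_le ⟨0, ∅, ?_, rfl⟩ ?_
  · intro u hu
    simp at hu
  · rintro n ⟨F, hF, rfl⟩
    obtain ⟨G, hG, hc⟩ := reduce F hF
    rw [← hc]
    exact le_maxR hq G hG

lemma finite_of {q : ℕ} (hq : 1 ≤ q) (F : Set (Fin q → ℤ)) (hF : Covering ({-1, 0, 1} : Set ℤ) F) :
    F.Finite ∧ F.ncard ≤ bound q := by
  have hle : ∀ G : Finset (Fin q → ℤ), Covering ({-1, 0, 1} : Set ℤ) (G : Set (Fin q → ℤ)) →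
      G.card ≤ bound q := by
    intro G hG
    obtain ⟨G', hG', hc⟩ := reduce G hG
    rw [← hc]
    exact le_boundR hq G' hG'
  have hfin : F.Finite := by
    by_contra hinf
    obtain ⟨t, ht, hc⟩ := Set.Infinite.exists_subset_card_eq hinf (bound q + 1)
    have h1 := hle t (fun u hu v hv => hF u (ht hu) v (ht hv))
    omega
  refine ⟨hfin, ?_⟩
  rw [Set.ncard_eq_toFinset_card F hfin]
  apply hle
  rw [Set.Finite.coe_toFinset]
  exact hF

/-- **`F(q) ≤ R(3, q) ≤ (1/6 + o(1)) 2 ^ q`.** -/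
theorem result :
    -- (1) the bound
    (∀ q : ℕ, 1 ≤ q →
      (∀ G : Finset (Fin q → ZMod 3), Covering Set.univ (G : Set (Fin q → ZMod 3)) → G.card ≤ bound q) ∧
      (∀ F : Set (Fin q → ℤ), Covering ({-1, 0, 1} : Set ℤ) F → F.Finite ∧ F.ncard ≤ bound q) ∧
      maxF q ≤ maxR q ∧ maxR q ≤ bound q) ∧
    -- (2) its value
    (∀ m : ℕ, 1 ≤ m → 6 * bound (2 * m) = 2 ^ (2 * m) + 2 * 3 ^ m + 2) ∧
    (∀ m : ℕ, 6 * bound (2 * m + 1) = 2 ^ (2 * m + 1) + 3 ^ (m + 1) + 1) ∧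
    -- (3) asymptotically
    (∀ ε : ℝ, 0 < ε → ∀ᶠ q : ℕ in atTop,
      (maxF q : ℝ) ≤ (1 / 6 + ε) * 2 ^ q ∧ (maxR q : ℝ) ≤ (1 / 6 + ε) * 2 ^ q) := by
  refine ⟨fun q hq => ⟨fun G hG => le_boundR hq G hG, fun F hF => finite_of hq F hF, maxF_le hq, maxR_le hq⟩,
    bound_even, bound_odd, ?_⟩
  intro ε hε
  obtain ⟨n, hn⟩ := exists_pow_lt_of_lt_one hε (by norm_num : (3 / 4 : ℝ) < 1)
  filter_upwards [eventually_ge_atTop (2 * n + 2)] with q hq
  have hq1 : 1 ≤ q := by omega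
  have hR : (maxR q : ℝ) ≤ (1 / 6 + ε) * 2 ^ q := by
    have h4 : (6 : ℝ) * (maxR q : ℝ) ≤ 2 ^ q + 5 * 3 ^ (q / 2) := by
      exact_mod_cast (Nat.mul_le_mul_left 6 (maxR_le hq1)).trans (bound_le q hq1)
    have h5 : (4 : ℝ) ^ (q / 2) ≤ 2 ^ q := by
      have : (4 : ℝ) = 2 ^ 2 := by norm_num
      rw [this, ← pow_mul]
      exact pow_le_pow_right₀ one_le_two (by omega)
    have h6 : (3 / 4 : ℝ) ^ (q / 2) ≤ (3 / 4) ^ n :=
      pow_le_pow_of_le_one (by norm_num) (by norm_num) (by omega)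
    have h7 : (3 : ℝ) ^ (q / 2) = (3 / 4) ^ (q / 2) * 4 ^ (q / 2) := by
      rw [← mul_pow]
      norm_num
    have h8 : (3 : ℝ) ^ (q / 2) ≤ ε * 2 ^ q := by
      rw [h7]
      exact mul_le_mul (h6.trans hn.le) h5 (by positivity) hε.le
    have h9 : (0 : ℝ) < ε * 2 ^ q := by positivity
    nlinarith
  exact ⟨le_trans (by exact_mod_cast maxF_le hq1) hR, hR⟩

end Pool.Agent.Results.MP_f4ab27_co.SixthBound
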